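import Pool.Agent.Helper99_Eng3.Stmts

/-!
# Squad ENG part 3 (MP_da8eb3_al): OCEN, the center of `Ω`
-/

set_option autoImplicit false

namespace Pool.Agent.Eng.H54C

open Pool.Agent.Eng QuadraticMap

section
variable {F V : Type} [Field F] [AddCommGroup V] [Module F V]

/-- Hyperbolic pairs. -/
def HPr (Q : QuadraticForm F V) (v v' : V) : Prop := Q v = 0 ∧ Q v' = 0 ∧ polar Q v v' = 1

lemma polar_sing (Q : QuadraticForm F V) (v : V) (hv : Q v = 0) : polar Q v v = 0 := by
  rw [polar_self, hv, smul_zero]

lemma partner (Q : QuadraticForm F V) (hQ : ND Q) (v : V) (hv0 : v ≠ 0) (hv : Q v = 0) :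
    ∃ v', HPr Q v v' := by
  have h : ∃ z, polar Q v z ≠ 0 := by
    by_contra hcon
    push Not at hcon
    exact hv0 (hQ v hcon)
  obtain ⟨z, hz⟩ := h
  obtain ⟨w, h1⟩ : ∃ w, polar Q v w = 1 :=
    ⟨(polar Q v z)⁻¹ • z, by rw [polar_smul_right, smul_eq_mul, inv_mul_cancel₀ hz]⟩
  refine ⟨w - Q w • v, hv, ?_, ?_⟩
  · have h2 : Q (w - Q w • v) = Q w + Q (-(Q w • v)) + polar Q w (-(Q w • v)) := by
      rw [sub_eq_add_neg, QuadraticMap.map_add Q]
    rw [h2, QuadraticMap.map_neg, QuadraticMap.map_smul, hv, polar_neg_right, polar_smul_right,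
      polar_comm, h1]
    simp
  · rw [polar_sub_right, polar_smul_right, h1, polar_sing Q v hv]
    simp

/-- The orthogonal complement of a pair. -/
def V0 (Q : QuadraticForm F V) (v v' : V) : Submodule F V where
  carrier := {z | polar Q v z = 0 ∧ polar Q v' z = 0}
  add_mem' := by
    rintro a b ⟨h1, h2⟩ ⟨h3, h4⟩
    exact ⟨by rw [polar_add_right, h1, h3, add_zero], by rw [polar_add_right, h2, h4, add_zero]⟩
  zero_mem' := ⟨by simp, by simp⟩
  smul_mem' := by
    rintro c a ⟨h1, h2⟩
    exact ⟨by rw [polar_smul_right, h1, smul_zero], by rw [polar_smul_right, h2, smul_zero]⟩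

lemma V0_finrank [FiniteDimensional F V] (Q : QuadraticForm F V) (v v' : V) :
    Module.finrank F V ≤ Module.finrank F (V0 Q v v') + 2 := by
  set L : V →ₗ[F] F × F := LinearMap.prod (polarBilin Q v) (polarBilin Q v') with hL
  have hk : LinearMap.ker L = V0 Q v v' := by
    ext z
    rw [LinearMap.mem_ker, hL, LinearMap.prod_apply, Prod.mk_eq_zero]
    rfl
  have h := LinearMap.finrank_range_add_finrank_ker L
  have h2 : Module.finrank F (LinearMap.range L) ≤ 2 := by
    have := Submodule.finrank_le (LinearMap.range L)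
    simpa using this
  rw [hk] at h
  omega

lemma decomp (Q : QuadraticForm F V) (v v' : V) (h : HPr Q v v') (z : V) :
    z - polar Q v' z • v - polar Q v z • v' ∈ V0 Q v v' := by
  obtain ⟨h1, h2, h3⟩ := h
  refine ⟨?_, ?_⟩
  · rw [polar_sub_right, polar_sub_right, polar_smul_right, polar_smul_right, h3,
      polar_sing Q v h1]
    simp
  · rw [polar_sub_right, polar_sub_right, polar_smul_right, polar_smul_right,
      polar_comm Q v' v, h3, polar_sing Q v' h2]
    simp

lemma V0_nd (Q : QuadraticForm F V) (hQ : ND Q) (v v' : V) (h : HPr Q v v') :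
    ND (Q.comp (V0 Q v v').subtype) := by
  intro u hu
  apply Subtype.ext
  apply hQ
  intro z
  have hd := decomp Q v v' h z
  have e := hu ⟨_, hd⟩
  have e2 : polar Q (u : V) (z - polar Q v' z • v - polar Q v z • v') = 0 := e
  rw [polar_sub_right, polar_sub_right, polar_smul_right, polar_smul_right,
    polar_comm Q u v, polar_comm Q u v', u.2.1, u.2.2] at e2
  simpa using e2

lemma pair2 [Finite F] [FiniteDimensional F V] (hOHYD : OhydStmt) (Q : QuadraticForm F V)
    (hQ : ND Q) (h5 : 5 ≤ Module.finrank F V) (v v' : V) (h : HPr Q v v') :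
    ∃ x x' : V, HPr Q x x' ∧ polar Q v x = 0 ∧ polar Q v' x = 0 ∧ polar Q v x' = 0 ∧
      polar Q v' x' = 0 := by
  have hf := V0_finrank Q v v'
  have hnd := V0_nd Q hQ v v' h
  obtain ⟨W, hW1, hW2⟩ := hOHYD F (V0 Q v v') (Q.comp (V0 Q v v').subtype) 1 hnd (by omega)
  have hne : W ≠ ⊥ := by
    rintro rfl
    rw [finrank_bot] at hW1
    exact absurd hW1 (by norm_num)
  obtain ⟨x, hx, hx0⟩ := W.ne_bot_iff.1 hne
  obtain ⟨x', h1, h2, h3⟩ := partner _ hnd x hx0 (hW2 x hx)
  exact ⟨x, x', ⟨h1, h2, h3⟩, x.2.1, x.2.2, x'.2.1, x'.2.2⟩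

end

theorem ocen (hOEIC : OeicStmt) (hOHYD : OhydStmt) : OcenStmt := by
  intro F V _ _ _ _ _ Q hQ h7 g hg hcomm
  have hgO : ∀ z, Q (g z) = Q z := by
    have hle : OmV Q ≤ OV Q := by
      rw [OmV, Subgroup.commutator_le]
      intro a ha b hb
      exact (OV Q).mul_mem ((OV Q).mul_mem ((OV Q).mul_mem ha hb) ((OV Q).inv_mem ha))
        ((OV Q).inv_mem hb)
    exact hle hg
  -- the fundamental relation
  have hrel : ∀ v x, Q v = 0 → Q x = 0 → polar Q v x = 0 → ∀ z,
      polar Q z v • g x - polar Q z x • g v = polar Q (g z) v • x - polar Q (g z) x • v := by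
    intro v x hv hx hvx z
    obtain ⟨E, hE, hEz⟩ := hOEIC F V Q hQ (by omega) v x hv hvx
    have h1 : E (g z) = g (E z) := LinearEquiv.congr_fun (hcomm E hE) z
    rw [hEz, hEz, hx] at h1
    simp only [zero_mul, zero_smul, sub_zero, map_add, map_sub, map_smul] at h1
    have h2 : polar Q (g z) v • x - polar Q (g z) x • v =
      (g z + polar Q (g z) v • x - polar Q (g z) x • v) - g z := by abel
    rw [h2, h1]
    abel
  -- singular vectors are eigenvectors
  have hone : ∀ v, v ≠ 0 → Q v = 0 → ∃ μ : F, g v = μ • v := by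
    intro v hv0 hv
    obtain ⟨v', hvv⟩ := partner Q hQ v hv0 hv
    obtain ⟨x, x', ⟨hx, hx', hxx⟩, a1, a2, a3, a4⟩ := pair2 hOHYD Q hQ (by omega) v v' hvv
    have h1 := hrel v x hv hx a1 (-x')
    have h2 := hrel v x' hv hx' a3 (-x)
    rw [polar_neg_left, polar_neg_left, polar_comm Q x' v, a3, polar_comm Q x' x, hxx] at h1
    rw [polar_neg_left, polar_neg_left, polar_comm Q x v, a1, hxx] at h2
    simp only [neg_zero, zero_smul, neg_smul, one_smul, sub_neg_eq_add, zero_add] at h1 h2
    -- pair with `x'`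
    have e1 : polar Q (g v) x' = polar Q (g (-x')) v := by
      rw [h1, polar_sub_left, polar_smul_left, polar_smul_left, hxx, a3]
      simp
    have e2 : polar Q (g v) x' = 0 := by
      rw [h2, polar_sub_left, polar_smul_left, polar_smul_left, polar_sing Q x' hx', a3]
      simp
    rw [e1] at e2
    rw [e2, zero_smul, zero_sub, ← neg_smul] at h1
    exact ⟨_, h1⟩
  -- orthogonal singular vectors have the same eigenvalue
  have horth : ∀ v w (μ ν : F), Q v = 0 → Q w = 0 → polar Q v w = 0 →
      LinearIndependent F ![v, w] → g v = μ • v → g w = ν • w → μ = ν := by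
    intro v w μ ν hv hw hvw hli hμ hν
    have hne : v + w ≠ 0 := by
      intro h
      have := (LinearIndependent.pair_iff.1 hli) 1 1 (by simpa using h)
      exact one_ne_zero this.1
    have hs : Q (v + w) = 0 := by
      rw [QuadraticMap.map_add Q, hv, hw, hvw]; simp
    obtain ⟨ρ, hρ⟩ := hone (v + w) hne hs
    rw [map_add, hμ, hν, smul_add] at hρ
    have h1 : (μ - ρ) • v + (ν - ρ) • w = 0 := by
      rw [sub_smul, sub_smul]
      have : μ • v + ν • w - (ρ • v + ρ • w) = 0 := sub_eq_zero.2 hρ
      rw [← this]; abel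
    obtain ⟨h2, h3⟩ := (LinearIndependent.pair_iff.1 hli) _ _ h1
    rw [sub_eq_zero] at h2 h3
    rw [h2, h3]
  -- all singular vectors
  have hf := hOHYD F V Q 1 hQ (by omega)
  obtain ⟨W, hW1, hW2⟩ := hf
  have hneW : W ≠ ⊥ := by
    rintro rfl
    rw [finrank_bot] at hW1
    exact absurd hW1 (by norm_num)
  obtain ⟨v, hvW, hv0⟩ := W.ne_bot_iff.1 hneW
  have hv : Q v = 0 := hW2 v hvW
  obtain ⟨μ, hμ⟩ := hone v hv0 hv
  have hall : ∀ w, Q w = 0 → g w = μ • w := by
    intro w hw
    by_cases hw0 : w = 0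
    · rw [hw0]; simp
    obtain ⟨ν, hν⟩ := hone w hw0 hw
    by_cases hli : LinearIndependent F ![v, w]
    · by_cases hvw : polar Q v w = 0
      · rw [horth v w μ ν hv hw hvw hli hμ hν, hν]
      · -- a third vector
        set w' := (polar Q v w)⁻¹ • w with hw'
        have hp : HPr Q v w' := by
          refine ⟨hv, ?_, ?_⟩
          · rw [hw', QuadraticMap.map_smul, hw, smul_zero]
          · rw [hw', polar_smul_right, smul_eq_mul, inv_mul_cancel₀ hvw]
        obtain ⟨x, x', ⟨hx, hx', hxx⟩, a1, a2, a3, a4⟩ := pair2 hOHYD Q hQ (by omega) v w' hp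
        have hx0 : x ≠ 0 := by
          rintro rfl
          simp at hxx
        obtain ⟨ρ, hρ⟩ := hone x hx0 hx
        have hwx : polar Q w x = 0 := by
          rw [hw', polar_smul_left, smul_eq_mul] at a2
          rcases mul_eq_zero.1 a2 with h | h
          · exact absurd h (inv_ne_zero hvw)
          · exact h
        have hwx' : polar Q w x' = 0 := by
          rw [hw', polar_smul_left, smul_eq_mul] at a4
          rcases mul_eq_zero.1 a4 with h | h
          · exact absurd h (inv_ne_zero hvw)
          · exact h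
        have l1 : LinearIndependent F ![v, x] := by
          rw [LinearIndependent.pair_iff]
          intro s t hst
          have e1 : polar Q (s • v + t • x) x' = 0 := by rw [hst]; simp
          rw [polar_add_left, polar_smul_left, polar_smul_left, a3, hxx] at e1
          have ht : t = 0 := by simpa using e1
          rw [ht, zero_smul, add_zero] at hst
          exact ⟨(smul_eq_zero.1 hst).resolve_right hv0, ht⟩
        have l2 : LinearIndependent F ![w, x] := by
          rw [LinearIndependent.pair_iff]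
          intro s t hst
          have e1 : polar Q (s • w + t • x) x' = 0 := by rw [hst]; simp
          rw [polar_add_left, polar_smul_left, polar_smul_left, hwx', hxx] at e1
          have ht : t = 0 := by simpa using e1
          rw [ht, zero_smul, add_zero] at hst
          exact ⟨(smul_eq_zero.1 hst).resolve_right hw0, ht⟩
        have m1 := horth v x μ ρ hv hx a1 l1 hμ hρ
        have m2 := horth w x ν ρ hw hx hwx l2 hν hρ
        rw [m1, ← m2, hν]
    · rw [LinearIndependent.pair_iff' hv0] at hli
      push Not at hli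
      obtain ⟨a, ha⟩ := hli
      rw [← ha, map_smul, hμ, smul_comm]
  -- singular vectors span
  obtain ⟨v', hvv⟩ := partner Q hQ v hv0 hv
  have hv' : Q v' = 0 := hvv.2.1
  refine ⟨μ, fun z => ?_⟩
  have hd := decomp Q v v' hvv z
  set z0 := z - polar Q v' z • v - polar Q v z • v' with hz0
  have hs : Q (z0 - Q z0 • v + v') = 0 := by
    have e1 : polar Q z0 v = 0 := by rw [polar_comm]; exact hd.1
    have e2 : polar Q z0 v' = 0 := by rw [polar_comm]; exact hd.2
    have e3 : Q (z0 - Q z0 • v) = Q z0 := by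
      rw [sub_eq_add_neg, QuadraticMap.map_add Q, QuadraticMap.map_neg, QuadraticMap.map_smul, hv,
        polar_neg_right, polar_smul_right, e1]
      simp
    rw [QuadraticMap.map_add Q, e3, hv', polar_sub_left, polar_smul_left, e2, hvv.2.2]
    simp
  have h1 := hall _ hs
  rw [map_add, map_sub, map_smul, hall v hv, hall v' hv'] at h1
  have h2 : g z0 = μ • z0 := by
    have e : g z0 = (g z0 - Q z0 • μ • v + μ • v') + Q z0 • μ • v - μ • v' := by abel
    rw [e, h1, smul_add, smul_sub, smul_comm (Q z0) μ v]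
    abel
  have hz : z = z0 + polar Q v' z • v + polar Q v z • v' := by rw [hz0]; abel
  rw [hz, map_add, map_add, map_smul, map_smul, h2, hall v hv, hall v' hv', smul_add, smul_add,
    smul_comm μ, smul_comm μ]

end Pool.Agent.Eng.H54C
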