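import Pool.Agent.Helper99_Eng3.Stmts

/-!
# Squad ENG part 3 (MP_da8eb3_al): OTE, forms over the prime field inside forms over `F`
-/

set_option autoImplicit false

namespace Pool.Agent.Eng.H54

open Pool.Agent.Eng

/-! ## Even dimension -/

lemma even_dim {K U : Type} [Field K] [AddCommGroup U] [Module K U] [FiniteDimensional K U]
    (h2 : (2 : K) = 0) (P : QuadraticForm K U) (hP : ND P) :
    ∃ n : ℕ, Module.finrank K U = 2 * n := by
  classical
  set B : LinearMap.BilinForm K U := QuadraticMap.polarBilin P with hB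
  have hBa : ∀ x y, B x y = QuadraticMap.polar P x y := fun x y => rfl
  have halt : ∀ x, B x x = 0 := by
    intro x
    rw [hBa, QuadraticMap.polar_self, two_smul, ← two_mul, h2, zero_mul]
  have hsymm : ∀ x y, B x y = B y x := by
    intro x y
    rw [hBa, hBa, QuadraticMap.polar_comm]
  have hker : LinearMap.ker B = ⊥ := by
    rw [eq_bot_iff]
    intro x hx
    rw [LinearMap.mem_ker] at hx
    rw [Submodule.mem_bot]
    refine hP x fun v => ?_
    rw [← hBa, hx]
    rfl
  obtain ⟨W, hW, hmax⟩ := (wellFounded_gt (α := Submodule K U)).has_min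
    {W | ∀ x ∈ W, ∀ y ∈ W, B x y = 0} ⟨⊥, by
      intro x hx y hy
      rw [Submodule.mem_bot] at hx
      rw [hx]
      simp⟩
  have hle : W ≤ B.orthogonal W := by
    intro x hx y hy
    exact hW y hy x hx
  have hge : B.orthogonal W ≤ W := by
    intro x hx
    by_contra hxW
    have hnew : (W ⊔ K ∙ x) ∈ {W : Submodule K U | ∀ x ∈ W, ∀ y ∈ W, B x y = 0} := by
      intro a ha b hb
      obtain ⟨w, hw, u, hu, rfl⟩ := Submodule.mem_sup.1 ha
      obtain ⟨w', hw', u', hu', rfl⟩ := Submodule.mem_sup.1 hb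
      obtain ⟨c, rfl⟩ := Submodule.mem_span_singleton.1 hu
      obtain ⟨c', rfl⟩ := Submodule.mem_span_singleton.1 hu'
      have e1 : B w x = 0 := hx w hw
      have e2 : B x w' = 0 := by rw [hsymm]; exact hx w' hw'
      have e3 : B w w' = 0 := hW w hw w' hw'
      simp [e1, e2, e3, halt]
    refine hmax _ hnew (lt_of_le_of_ne le_sup_left ?_)
    intro h
    apply hxW
    rw [h]
    exact Submodule.mem_sup_right (Submodule.mem_span_singleton_self x)
  have heq : B.orthogonal W = W := le_antisymm hge hle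
  have h := LinearMap.BilinForm.finrank_add_finrank_orthogonal' (B := B) W
  rw [heq, hker, inf_bot_eq, finrank_bot, add_zero] at h
  exact ⟨Module.finrank K W, by rw [← h]; ring⟩

/-! ## Extension of scalars along a basis -/

section ext

variable {K F U E κ : Type} [Field K] [Field F] [AddCommGroup U] [Module K U] [AddCommGroup E]
  [Module F E] {σ : K →+* F} (j : U →ₛₗ[σ] E) (bU : Module.Basis κ K U)
  (bE : Module.Basis κ F E)

/-- The linear extension of `g`. -/
noncomputable def ex (g : U →ₗ[K] U) : E →ₗ[F] E := bE.constr F (fun i => j (g (bU i)))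

lemma ex_j (hj : ∀ i, j (bU i) = bE i) (g : U →ₗ[K] U) (u : U) :
    ex j bU bE g (j u) = j (g u) := by
  have h : ((ex j bU bE g).comp j : U →ₛₗ[σ] E) = j.comp g := by
    apply bU.ext
    intro i
    simp only [LinearMap.comp_apply, hj, ex]
    rw [Module.Basis.constr_basis]
  exact LinearMap.congr_fun h u

lemma ex_comp (hj : ∀ i, j (bU i) = bE i) (g h : U →ₗ[K] U) :
    (ex j bU bE g).comp (ex j bU bE h) = ex j bU bE (g.comp h) := by
  apply bE.ext
  intro i
  rw [LinearMap.comp_apply, ← hj, ex_j j bU bE hj, ex_j j bU bE hj, ex_j j bU bE hj,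
    LinearMap.comp_apply]

lemma ex_id (hj : ∀ i, j (bU i) = bE i) : ex j bU bE LinearMap.id = LinearMap.id := by
  apply bE.ext
  intro i
  rw [← hj, ex_j j bU bE hj]
  rfl

/-- The extension as a group homomorphism. -/
noncomputable def exH (hj : ∀ i, j (bU i) = bE i) : (U ≃ₗ[K] U) →* (E ≃ₗ[F] E) where
  toFun g := LinearEquiv.ofLinearMap (ex j bU bE g.toLinearMap) (ex j bU bE g.symm.toLinearMap)
    (by rw [ex_comp j bU bE hj, LinearEquiv.comp_coe, LinearEquiv.symm_trans_self]
        exact ex_id j bU bE hj)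
    (by rw [ex_comp j bU bE hj, LinearEquiv.comp_coe, LinearEquiv.self_trans_symm]
        exact ex_id j bU bE hj)
  map_one' := by
    ext x
    change ex j bU bE (LinearMap.id) x = x
    rw [ex_id j bU bE hj]
    rfl
  map_mul' g h := by
    ext x
    change ex j bU bE (g.toLinearMap.comp h.toLinearMap) x =
      ex j bU bE g.toLinearMap (ex j bU bE h.toLinearMap x)
    rw [← ex_comp j bU bE hj]
    rfl

lemma exH_j (hj : ∀ i, j (bU i) = bE i) (g : U ≃ₗ[K] U) (u : U) :
    exH j bU bE hj g (j u) = j (g u) := ex_j j bU bE hj _ u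

lemma quad_zero (hj : ∀ i, j (bU i) = bE i) (D : QuadraticForm F E)
    (h : ∀ u, D (j u) = 0) : ∀ x, D x = 0 := by
  have hp : QuadraticMap.polarBilin D = 0 := by
    apply bE.ext
    intro i
    apply bE.ext
    intro k
    change QuadraticMap.polar D (bE i) (bE k) = 0
    rw [QuadraticMap.polar, ← hj, ← hj, ← map_add, h, h, h]
    simp
  have hadd : ∀ x y, D (x + y) = D x + D y := by
    intro x y
    have h1 : QuadraticMap.polar D x y = 0 := by
      change QuadraticMap.polarBilin D x y = 0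
      rw [hp]; rfl
    rw [QuadraticMap.polar] at h1
    linear_combination h1
  intro x
  have hx : x ∈ Submodule.span F (Set.range bE) := by
    rw [bE.span_eq]; exact Submodule.mem_top
  induction hx using Submodule.span_induction with
  | mem y hy =>
    obtain ⟨i, rfl⟩ := hy
    rw [← hj, h]
  | zero => exact QuadraticMap.map_zero D
  | add y z _ _ hy hz => rw [hadd, hy, hz, add_zero]
  | smul a y _ hy => rw [QuadraticMap.map_smul, hy, smul_zero]

lemma exH_mem (hj : ∀ i, j (bU i) = bE i) (P : QuadraticForm K U) (R : QuadraticForm F E)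
    (hR : ∀ u, R (j u) = σ (P u)) (g : U ≃ₗ[K] U) (hg : g ∈ OV P) :
    exH j bU bE hj g ∈ OV R := by
  intro x
  have h := quad_zero j bU bE hj
    (R.comp (exH j bU bE hj g).toLinearMap - R) (fun u => by
      change R (exH j bU bE hj g (j u)) - R (j u) = 0
      rw [exH_j, hR, hR, hg u, sub_self]) x
  have h2 : R (exH j bU bE hj g x) - R x = 0 := h
  exact sub_eq_zero.1 h2

lemma exH_memOm (hj : ∀ i, j (bU i) = bE i) (P : QuadraticForm K U) (R : QuadraticForm F E)
    (hR : ∀ u, R (j u) = σ (P u)) (g : U ≃ₗ[K] U) (hg : g ∈ OmV P) :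
    exH j bU bE hj g ∈ OmV R := by
  have h1 : (OmV P).map (exH j bU bE hj) ≤ OmV R := by
    rw [OmV, OmV, Subgroup.map_commutator]
    have h2 : (OV P).map (exH j bU bE hj) ≤ OV R := by
      rintro _ ⟨g, hg, rfl⟩
      exact exH_mem j bU bE hj P R hR g hg
    exact Subgroup.commutator_mono h2 h2
  exact h1 ⟨g, hg, rfl⟩

theorem map_eng {G H : Type} [Group G] [Group H] (f : G →* H) (y x : G) :
    f (eng y x) = eng (f y) (f x) := by
  simp [eng]

theorem map_eng_iter {G H : Type} [Group G] [Group H] (f : G →* H) (y : G) (n : ℕ) (x : G) :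
    f ((eng y)^[n] x) = (eng (f y))^[n] (f x) := by
  induction n generalizing x with
  | zero => rfl
  | succ n ih => rw [Function.iterate_succ_apply, Function.iterate_succ_apply, ih, map_eng]

lemma j_repr (hj : ∀ i, j (bU i) = bE i) (u : U) (i : κ) :
    bE.repr (j u) i = σ (bU.repr u i) := by
  classical
  have h : j u = (bU.repr u).sum fun i c => σ c • bE i := by
    conv_lhs => rw [← bU.linearCombination_repr u, Finsupp.linearCombination_apply,
      Finsupp.sum, map_sum]
    rw [Finsupp.sum]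
    refine Finset.sum_congr rfl fun i _ => ?_
    rw [LinearMap.map_smulₛₗ, hj]
  rw [h, Finsupp.sum, map_sum, Finsupp.finsetSum_apply]
  have h2 : ∀ k ∈ (bU.repr u).support, (bE.repr (σ (bU.repr u k) • bE k)) i =
      if k = i then σ (bU.repr u k) else 0 := by
    intro k _
    rw [map_smul, Module.Basis.repr_self, Finsupp.smul_apply, Finsupp.single_apply]
    split_ifs <;> simp
  rw [Finset.sum_congr rfl h2, Finset.sum_ite_eq']
  split_ifs with h3
  · rfl
  · rw [Finsupp.notMem_support_iff.1 h3, map_zero]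

lemma j_inj (hj : ∀ i, j (bU i) = bE i) : Function.Injective j := by
  intro u v h
  apply bU.repr.injective
  ext i
  apply σ.injective
  rw [← j_repr j bU bE hj, ← j_repr j bU bE hj, h]

theorem olaw_down [Nonempty κ] (hj : ∀ i, j (bU i) = bE i) (P : QuadraticForm K U)
    (R : QuadraticForm F E) (hR : ∀ u, R (j u) = σ (P u)) (d : ℕ)
    (h : OLaw R d) : OLaw P d := by
  obtain ⟨r, hr⟩ := h
  refine ⟨r, fun x hx y hy => ?_⟩
  obtain ⟨c, hc⟩ := hr _ (exH_mem j bU bE hj P R hR x hx) _ (exH_memOm j bU bE hj P R hR y hy)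
  have key : ∀ (n : ℕ) (u : U), ((eng (exH j bU bE hj y))^[n] (exH j bU bE hj x)) (j u) =
      j (((eng y)^[n] x) u) := by
    intro n u
    rw [← map_eng_iter, exH_j]
  have h1 : ∀ u, j (((eng y)^[r + d] x) u) = c • j (((eng y)^[r] x) u) := by
    intro u
    rw [← key, ← key, hc]
  obtain ⟨i⟩ := ‹Nonempty κ›
  set A := (eng y)^[r + d] x with hA
  set C := (eng y)^[r] x with hC
  have h2 : c = σ (bU.repr (A (C.symm (bU i))) i) := by
    have h3 := congrArg (fun v => bE.repr v i) (h1 (C.symm (bU i)))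
    simp only [LinearEquiv.apply_symm_apply, hj, map_smul, Finsupp.smul_apply,
      Module.Basis.repr_self, Finsupp.single_eq_same, smul_eq_mul, mul_one] at h3
    rw [← h3, j_repr j bU bE hj]
  refine ⟨bU.repr (A (C.symm (bU i))) i, fun v => ?_⟩
  apply j_inj j bU bE hj
  rw [LinearMap.map_smulₛₗ, ← h2, h1]

end ext

/-! ## The explicit space -/

/-- The space of coordinates. -/
abbrev EE (R : Type) (n : ℕ) : Type := (Fin n → R) × (Fin n → R) × R × R

/-- The standard basis. -/
noncomputable def bas (R : Type) [Field R] (n : ℕ) :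
    Module.Basis (Fin n ⊕ Fin n ⊕ Unit ⊕ Unit) R (EE R n) :=
  (Pi.basisFun R (Fin n)).prod ((Pi.basisFun R (Fin n)).prod
    ((Module.Basis.singleton Unit R).prod (Module.Basis.singleton Unit R)))

/-- Coordinatewise application of a ring homomorphism. -/
def jj {K F : Type} [Field K] [Field F] (σ : K →+* F) (n : ℕ) : EE K n →ₛₗ[σ] EE F n where
  toFun u := (fun i => σ (u.1 i), fun i => σ (u.2.1 i), σ u.2.2.1, σ u.2.2.2)
  map_add' u v := by
    ext <;> simp
  map_smul' c u := by
    ext <;> simp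

lemma jj_bas {K F : Type} [Field K] [Field F] (σ : K →+* F) (n : ℕ)
    (i : Fin n ⊕ Fin n ⊕ Unit ⊕ Unit) : jj σ n (bas K n i) = bas F n i := by
  classical
  rcases i with i | i | i | i
  · ext k <;> simp [jj, bas, Pi.single_apply]
  · ext k <;> simp [jj, bas, Pi.single_apply]
  · ext k <;> simp [jj, bas]
  · ext k <;> simp [jj, bas]

lemma nd_R {F V : Type} [Field F] [AddCommGroup V] [Module F V] (h2 : (2 : F) = 0)
    (Q : QuadraticForm F V) (n : ℕ) (c : F) (ι : EE F n →ₗ[F] V)
    (hι : ∀ a b s t, Q (ι (a, b, s, t)) = ∑ i, a i * b i + s * t + c * (s ^ 2 + t ^ 2)) :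
    ND (Q.comp ι) := by
  classical
  have hR : ∀ u : EE F n, (Q.comp ι) u =
      ∑ i, u.1 i * u.2.1 i + u.2.2.1 * u.2.2.2 + c * (u.2.2.1 ^ 2 + u.2.2.2 ^ 2) := by
    intro u
    exact hι u.1 u.2.1 u.2.2.1 u.2.2.2
  have hpol : ∀ u v : EE F n, QuadraticMap.polar (Q.comp ι) u v =
      ∑ i, (u.1 i * v.2.1 i + v.1 i * u.2.1 i) + u.2.2.1 * v.2.2.2 + v.2.2.1 * u.2.2.2 := by
    intro u v
    rw [QuadraticMap.polar, hR, hR, hR]
    simp only [Prod.fst_add, Prod.snd_add, Pi.add_apply]
    have e1 : ∑ i, (u.1 i + v.1 i) * (u.2.1 i + v.2.1 i) = ∑ i, u.1 i * u.2.1 i +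
        ∑ i, v.1 i * v.2.1 i + ∑ i, (u.1 i * v.2.1 i + v.1 i * u.2.1 i) := by
      rw [← Finset.sum_add_distrib, ← Finset.sum_add_distrib]
      exact Finset.sum_congr rfl fun i _ => by ring
    rw [e1]
    linear_combination (c * (u.2.2.1 * v.2.2.1 + u.2.2.2 * v.2.2.2)) * h2
  intro u hu
  have h1 : ∀ i, u.1 i = 0 := by
    intro i
    have := hu (0, Pi.single i 1, 0, 0)
    rw [hpol] at this
    simpa [Pi.single_apply] using this
  have h3 : ∀ i, u.2.1 i = 0 := by
    intro i
    have := hu (Pi.single i 1, 0, 0, 0)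
    rw [hpol] at this
    simpa [Pi.single_apply] using this
  have h4 : u.2.2.1 = 0 := by
    have := hu (0, 0, 0, 1)
    rw [hpol] at this
    simpa using this
  have h5 : u.2.2.2 = 0 := by
    have := hu (0, 0, 1, 0)
    rw [hpol] at this
    simpa using this
  ext i
  · exact h1 i
  · exact h3 i
  · exact h4
  · exact h5

theorem ote (hOTB : OtbStmt) (hOTF : OtfStmt) (hOTR : OtrStmt) : OteStmt := by
  intro F V U _ _ _ _ _ _ _ _ Q P hQ hP h2 hU hUV d hd
  obtain ⟨m, hm⟩ := even_dim (by decide) P hP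
  obtain ⟨n, rfl⟩ : ∃ n, m = n + 1 := ⟨m - 1, by omega⟩
  obtain ⟨c, φ, hφ⟩ := hOTB U P n hP (by omega)
  have : CharP F 2 := CharTwo.of_one_ne_zero_of_two_eq_zero one_ne_zero h2
  set σ : ZMod 2 →+* F := ZMod.castHom (dvd_refl 2) F with hσ
  have hc : σ c = 0 ∨ σ c = 1 := by
    rcases (by decide : ∀ c : ZMod 2, c = 0 ∨ c = 1) c with h | h
    · left; rw [h, map_zero]
    · right; rw [h, map_one]
  obtain ⟨ι, hι⟩ := hOTF F V Q n (σ c) hQ h2 hc (by omega)
  have hND := nd_R h2 Q n (σ c) ι hι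
  have h3 : OLaw (Q.comp ι) d :=
    hOTR F (EE F n) V (Q.comp ι) Q ι hND (fun _ => rfl) d hd
  refine olaw_down ((jj σ n).comp φ.toLinearMap) ((bas (ZMod 2) n).map φ.symm) (bas F n)
    (fun i => ?_) P (Q.comp ι) (fun u => ?_) d h3
  · rw [LinearMap.comp_apply, Module.Basis.map_apply]
    change jj σ n (φ (φ.symm (bas (ZMod 2) n i))) = _
    rw [LinearEquiv.apply_symm_apply, jj_bas]
  · change Q (ι (fun i => σ ((φ u).1 i), fun i => σ ((φ u).2.1 i), σ (φ u).2.2.1,
      σ (φ u).2.2.2)) = _
    rw [hι, hφ u]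
    simp only [map_add, map_sum, map_mul, map_pow]

end Pool.Agent.Eng.H54
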